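import Mathlib

namespace Pool.Agent.H.MP_9fe0db_an
open Set

variable {X : Type} [AddCommGroup X] [Module ℝ X]

structure IsN (N : X → ℝ) : Prop where
  add : ∀ x y : X, N (x + y) ≤ N x + N y
  smul : ∀ (c : ℝ) (x : X), N (c • x) = |c| * N x
  pos : ∀ x, N x = 0 → x = 0

theorem IsN.zero {N : X → ℝ} (h : IsN N) : N 0 = 0 := by
  have := h.smul 0 0
  simpa using this

theorem IsN.neg {N : X → ℝ} (h : IsN N) (x : X) : N (-x) = N x := by
  have := h.smul (-1) x
  simpa using this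

theorem IsN.nonneg {N : X → ℝ} (h : IsN N) (x : X) : 0 ≤ N x := by
  have := h.add x (-x)
  rw [add_neg_cancel, h.zero, h.neg] at this
  linarith

theorem IsN.sub {N : X → ℝ} (h : IsN N) (x y : X) : N (x - y) ≤ N x + N y := by
  have := h.add x (-y)
  rwa [h.neg, ← sub_eq_add_neg] at this

theorem IsN.smul' {N : X → ℝ} (h : IsN N) {c : ℝ} (hc : 0 ≤ c) (x : X) : N (c • x) = c * N x := by
  rw [h.smul, abs_of_nonneg hc]

theorem clarkson {q a b : ℝ} (hq : 2 ≤ q) (hb : 0 ≤ b) (hab : b ≤ a) :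
    ((a + b) / 2) ^ q + ((a - b) / 2) ^ q ≤ (a ^ q + b ^ q) / 2 := by
  have ha : 0 ≤ a := hb.trans hab
  have h1 := Real.rpow_add_rpow_le (a := (a + b) / 2) (b := (a - b) / 2) (p := 2) (q := q)
    (by linarith) (by linarith) (by norm_num) hq
  have h0 : 0 ≤ ((a + b) / 2) ^ q + ((a - b) / 2) ^ q := by
    have : 0 ≤ (a - b) / 2 := by linarith
    positivity
  have h2 := Real.rpow_le_rpow (Real.rpow_nonneg h0 _) h1 (show 0 ≤ q by linarith)
  rw [← Real.rpow_mul h0, one_div_mul_cancel (by linarith), Real.rpow_one, Real.rpow_two,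
    Real.rpow_two, ← Real.rpow_mul (by positivity)] at h2
  have h4 := (convexOn_rpow (p := 1 / 2 * q) (by linarith)).2
  have h3 := h4 (mem_Ici.2 (sq_nonneg a)) (mem_Ici.2 (sq_nonneg b)) (show (0 : ℝ) ≤ 1 / 2 by norm_num)
    (show (0 : ℝ) ≤ 1 / 2 by norm_num) (by norm_num)
  simp only [smul_eq_mul] at h3
  rw [← Real.rpow_two a, ← Real.rpow_two b, ← Real.rpow_mul ha, ← Real.rpow_mul hb,
    show 2 * (1 / 2 * q) = q by ring, Real.rpow_two, Real.rpow_two] at h3
  rw [show ((a + b) / 2) ^ 2 + ((a - b) / 2) ^ 2 = 1 / 2 * a ^ 2 + 1 / 2 * b ^ 2 by ring] at h2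
  linarith

theorem conv_unit {N : X → ℝ} (h : IsN N) {q K : ℝ} (hq : 2 ≤ q) (hK : 0 < K)
    (hc : ∀ ε : ℝ, 0 < ε → ε ≤ 2 → ∀ x y : X, N x = 1 → N y = 1 →
      ε ≤ N (x - y) → K * ε ^ q ≤ 1 - N ((1 / 2 : ℝ) • (x + y))) (x y : X)
    (h1 : N (x + y) = 1) (h2 : N (x - y) ≤ 1) :
    N x ^ q + min ((1 / 4) ^ q) (K / 2 * (3 / 4) ^ (q - 1)) * N y ^ q ≤
      (1 + N (x - y) ^ q) / 2 := by
  set b := N (x - y) with hb
  set s := N y with hs
  have hb0 : 0 ≤ b := h.nonneg _
  have hs0 : 0 ≤ s := h.nonneg _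
  have hx0 := h.nonneg x
  have hcl := clarkson hq hb0 h2
  rw [Real.one_rpow] at hcl
  have hsq : 0 ≤ s ^ q := Real.rpow_nonneg hs0 _
  have e2 : N ((x + y) - (x - y)) = 2 * s := by
    rw [show (x + y) - (x - y) = (2 : ℝ) • y by module, h.smul' (by norm_num)]
  have hs1 : s ≤ 1 := by have := h.sub (x + y) (x - y); linarith
  rcases le_or_gt (s / 2) (1 - b) with c | c
  · have e1 : N x ≤ (1 + b) / 2 := by
      have := h.add (x + y) (x - y)
      rw [show (x + y) + (x - y) = (2 : ℝ) • x by module, h.smul' (by norm_num)] at this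
      linarith
    have a1 := Real.rpow_le_rpow hx0 e1 (show 0 ≤ q by linarith)
    have a2 := Real.rpow_le_rpow (show 0 ≤ 1 / 4 * s by positivity)
      (show 1 / 4 * s ≤ (1 - b) / 2 by linarith) (show 0 ≤ q by linarith)
    rw [Real.mul_rpow (by norm_num) hs0] at a2
    have a3 := mul_le_mul_of_nonneg_right (min_le_left ((1 / 4 : ℝ) ^ q)
      (K / 2 * (3 / 4) ^ (q - 1))) hsq
    linarith
  · have hb1 : 1 / 2 < b := by linarith
    have hspos : 0 < s := by linarith
    have e3 : N (b⁻¹ • (x - y)) = 1 := by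
      rw [h.smul' (by positivity), ← hb]; field_simp
    have e4 : s ≤ N ((x + y) - b⁻¹ • (x - y)) := by
      have t1 := h.add ((x + y) - b⁻¹ • (x - y)) ((1 - b) • (b⁻¹ • (x - y)))
      rw [h.smul' (by linarith), e3, show (x + y) - b⁻¹ • (x - y) + (1 - b) • (b⁻¹ • (x - y))
        = (x + y) - (b * b⁻¹) • (x - y) by module, mul_inv_cancel₀ (by positivity), one_smul,
        e2] at t1
      linarith
    have e5 := hc s hspos (by linarith) _ _ h1 e3 e4
    have e6 : N x ≤ (1 + b) / 2 - K / 2 * s ^ q := by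
      have t1 := h.add (b • ((1 / 2 : ℝ) • ((x + y) + b⁻¹ • (x - y)))) (((1 - b) / 2) • (x + y))
      rw [h.smul' hb0, h.smul' (c := (1 - b) / 2) (by linarith), h1,
        show b • ((1 / 2 : ℝ) • ((x + y) + b⁻¹ • (x - y))) + ((1 - b) / 2) • (x + y)
        = (1 / 2 : ℝ) • (x + y) + (b * b⁻¹ / 2) • (x - y) by module,
        mul_inv_cancel₀ (by positivity),
        show (1 / 2 : ℝ) • (x + y) + (1 / 2 : ℝ) • (x - y) = x by module] at t1
      have t2 : 0 ≤ K * s ^ q := by positivity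
      nlinarith
    set m := (1 + b) / 2 with hm
    have hm0 : 3 / 4 ≤ m := by linarith
    have t3 : 0 ≤ K / 2 * s ^ q := by positivity
    have a1 : N x ^ q ≤ m ^ (q - 1) * N x := by
      rcases hx0.eq_or_lt with h0 | h0
      · rw [← h0, Real.zero_rpow (by linarith), mul_zero]
      · have : N x ^ q = N x ^ (q - 1) * N x := by
          rw [← Real.rpow_add_one h0.ne']; congr 1; ring
        rw [this]
        exact mul_le_mul_of_nonneg_right
          (Real.rpow_le_rpow hx0 (by linarith) (by linarith)) hx0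
    have a2 : m ^ q = m ^ (q - 1) * m := by
      rw [← Real.rpow_add_one (by linarith)]; congr 1; ring
    have a3 : (3 / 4 : ℝ) ^ (q - 1) ≤ m ^ (q - 1) :=
      Real.rpow_le_rpow (by norm_num) hm0 (by linarith)
    have a4 : 0 ≤ ((1 - b) / 2) ^ q := Real.rpow_nonneg (by linarith) _
    have a5 := mul_le_mul_of_nonneg_right (min_le_right ((1 / 4 : ℝ) ^ q)
      (K / 2 * (3 / 4) ^ (q - 1))) hsq
    have a6 : 0 ≤ m ^ (q - 1) := Real.rpow_nonneg (by linarith) _
    have a7 := mul_le_mul_of_nonneg_left e6 a6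
    have a8 := mul_le_mul_of_nonneg_right a3 t3
    nlinarith

theorem conv_all {N : X → ℝ} (h : IsN N) {q K : ℝ} (hq : 2 ≤ q) (hK : 0 < K)
    (hc : ∀ ε : ℝ, 0 < ε → ε ≤ 2 → ∀ x y : X, N x = 1 → N y = 1 →
      ε ≤ N (x - y) → K * ε ^ q ≤ 1 - N ((1 / 2 : ℝ) • (x + y))) :
    ∃ c : ℝ, 0 < c ∧ ∀ x y : X, N x ^ q + c * N y ^ q ≤ (N (x + y) ^ q + N (x - y) ^ q) / 2 := by
  refine ⟨min ((1 / 4) ^ q) (K / 2 * (3 / 4) ^ (q - 1)), by positivity, ?_⟩
  set c := min ((1 / 4 : ℝ) ^ q) (K / 2 * (3 / 4) ^ (q - 1))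
  have key : ∀ x y : X, N (x - y) ≤ N (x + y) →
      N x ^ q + c * N y ^ q ≤ (N (x + y) ^ q + N (x - y) ^ q) / 2 := by
    intro x y hxy
    rcases (h.nonneg (x + y)).eq_or_lt with h0 | h0
    · have h1 : x + y = 0 := h.pos _ h0.symm
      have h2 : x - y = 0 := h.pos _ (le_antisymm (by linarith) (h.nonneg _))
      have hx : x = 0 := by
        have : x = (1 / 2 : ℝ) • ((x + y) + (x - y)) := by module
        rw [this, h1, h2]; simp
      have hy : y = 0 := by rw [hx, zero_add] at h1; exact h1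
      subst hx hy
      simp [h.zero, Real.zero_rpow (show q ≠ 0 by linarith)]
    · set a := N (x + y) with ha
      have hi : 0 ≤ a⁻¹ := by positivity
      have := conv_unit h hq hK hc (a⁻¹ • x) (a⁻¹ • y)
        (by rw [← smul_add, h.smul' hi, ← ha]; field_simp)
        (by rw [← smul_sub, h.smul' hi, inv_mul_le_iff₀ h0]; linarith)
      rw [← smul_sub, h.smul' hi, h.smul' hi, h.smul' hi, Real.mul_rpow hi (h.nonneg _),
        Real.mul_rpow hi (h.nonneg _), Real.mul_rpow hi (h.nonneg _), Real.inv_rpow h0.le] at this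
      have hp : 0 < a ^ q := Real.rpow_pos_of_pos h0 _
      change _ + c * _ ≤ _ at this
      clear_value c
      have h3 := mul_le_mul_of_nonneg_left this hp.le
      field_simp at h3
      linarith
  intro x y
  rcases le_total (N (x - y)) (N (x + y)) with c1 | c1
  · exact key x y c1
  · have := key x (-y) (by rwa [sub_neg_eq_add, ← sub_eq_add_neg])
    rw [sub_neg_eq_add, ← sub_eq_add_neg, h.neg] at this
    linarith

theorem taylor {q s : ℝ} (hq : 2 ≤ q) (hs : |s| ≤ 1 / q) :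
    (1 + s) ^ q ≤ 1 + q * s + q ^ 2 * s ^ 2 := by
  have h1 : 1 / q ≤ 1 / 2 := one_div_le_one_div_of_le (by norm_num) hq
  have h2 := abs_le.1 hs
  have h3 : 0 < 1 + s := by linarith [h2.1]
  rw [Real.rpow_def_of_pos h3]
  have h4 : Real.log (1 + s) * q ≤ q * s := by
    have := Real.log_le_sub_one_of_pos h3
    nlinarith
  have h5 : |q * s| ≤ 1 := by
    rw [abs_mul, abs_of_pos (by linarith)]
    rwa [le_div_iff₀ (by linarith), mul_comm] at hs
  have h6 := (abs_le.1 (Real.abs_exp_sub_one_sub_id_le h5)).2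
  have := Real.exp_le_exp.2 h4
  nlinarith

theorem smooth_unit {N : X → ℝ} (h : IsN N) {p q K : ℝ} (hp : p ≤ 2) (hq : 2 ≤ q)
    (hK : 0 < K) (hs : ∀ t : ℝ, 0 < t → t ≤ 1 → ∀ x y : X, N x = 1 → N y = 1 →
      (N (x + t • y) + N (x - t • y)) / 2 - 1 ≤ K * t ^ p) (x y : X) (hx : N x = 1) :
    N (x + y) ^ q + N (x - y) ^ q - 2 ≤
      (2 * q * K + 2 * q ^ 2 + 2 * (q + 1) ^ q) * (N y ^ p + N y ^ q) := by
  set t := N y with ht
  have ht0 : 0 ≤ t := h.nonneg _
  have hq0 : 0 < q := by linarith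
  have p1 : 0 ≤ t ^ p := Real.rpow_nonneg ht0 _
  have p2 : 0 ≤ t ^ q := Real.rpow_nonneg ht0 _
  have p3 : 0 ≤ (q + 1) ^ q := by positivity
  have a1 : N (x + y) ≤ 1 + t := by linarith [h.add x y]
  have a2 : N (x - y) ≤ 1 + t := by linarith [h.sub x y]
  rcases le_or_gt (1 / q) t with c | c
  · have b1 : 1 + t ≤ (q + 1) * t := by
      rw [div_le_iff₀ hq0] at c; nlinarith
    have b2 := Real.rpow_le_rpow (h.nonneg _) (a1.trans b1) hq0.le
    have b3 := Real.rpow_le_rpow (h.nonneg _) (a2.trans b1) hq0.le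
    rw [Real.mul_rpow (by linarith) ht0] at b2 b3
    have : 0 ≤ (2 * q * K + 2 * q ^ 2) * (t ^ p + t ^ q) := by positivity
    have : 0 ≤ (q + 1) ^ q * t ^ p := by positivity
    nlinarith
  · rcases ht0.eq_or_lt with h0 | h0
    · have : y = 0 := h.pos _ h0.symm
      subst this
      simp only [add_zero, sub_zero, hx, Real.one_rpow]
      have : 0 ≤ (2 * q * K + 2 * q ^ 2 + 2 * (q + 1) ^ q) * (t ^ p + t ^ q) := by positivity
      linarith
    have h1 : 1 / q ≤ 1 / 2 := one_div_le_one_div_of_le (by norm_num) hq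
    have b0 := hs t h0 (by linarith) x (t⁻¹ • y) hx
      (by rw [h.smul' (by positivity), ← ht]; field_simp)
    rw [smul_smul, mul_inv_cancel₀ h0.ne', one_smul] at b0
    have a3 : 1 - t ≤ N (x + y) := by
      have := h.sub (x + y) y
      rw [add_sub_cancel_right] at this; linarith
    have a4 : 1 - t ≤ N (x - y) := by
      have := h.add (x - y) y
      rw [sub_add_cancel] at this; linarith
    have b1 := taylor (s := N (x + y) - 1) hq (abs_le.2 ⟨by linarith, by linarith⟩)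
    have b2 := taylor (s := N (x - y) - 1) hq (abs_le.2 ⟨by linarith, by linarith⟩)
    rw [add_sub_cancel] at b1 b2
    have b3 : (N (x + y) - 1) ^ 2 ≤ t ^ 2 := sq_le_sq' (by linarith) (by linarith)
    have b4 : (N (x - y) - 1) ^ 2 ≤ t ^ 2 := sq_le_sq' (by linarith) (by linarith)
    have b5 : t ^ 2 ≤ t ^ p := by
      rw [← Real.rpow_two]
      exact Real.rpow_le_rpow_of_exponent_ge h0 (by linarith) hp
    have b6 := mul_le_mul_of_nonneg_left (b3.trans b5) (sq_nonneg q)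
    have b7 := mul_le_mul_of_nonneg_left (b4.trans b5) (sq_nonneg q)
    have b8 := mul_le_mul_of_nonneg_left b0 hq0.le
    have : 0 ≤ (2 * q * K + 2 * q ^ 2) * t ^ q := by positivity
    have : 0 ≤ (q + 1) ^ q * (t ^ p + t ^ q) := by positivity
    nlinarith

theorem smooth_all {N : X → ℝ} (h : IsN N) {p q K : ℝ} (hp0 : 0 ≤ p) (hp : p ≤ 2) (hq : 2 ≤ q)
    (hK : 0 < K) (hs : ∀ t : ℝ, 0 < t → t ≤ 1 → ∀ x y : X, N x = 1 → N y = 1 →
      (N (x + t • y) + N (x - t • y)) / 2 - 1 ≤ K * t ^ p) :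
    ∃ C : ℝ, 0 < C ∧ ∀ x y : X, N (x + y) ^ q + N (x - y) ^ q - 2 * N x ^ q ≤
      C * ((1 + N x ^ q) * N y ^ p + N y ^ q) := by
  have hq0 : 0 < q := by linarith
  refine ⟨2 * q * K + 2 * q ^ 2 + 2 * (q + 1) ^ q, by positivity, fun x y => ?_⟩
  have hC : 2 ≤ 2 * q * K + 2 * q ^ 2 + 2 * (q + 1) ^ q := by
    have : 0 ≤ 2 * q * K + 2 * (q + 1) ^ q := by positivity
    nlinarith
  set C := 2 * q * K + 2 * q ^ 2 + 2 * (q + 1) ^ q
  have p1 : 0 ≤ N y ^ p := Real.rpow_nonneg (h.nonneg _) _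
  have p2 : 0 ≤ N y ^ q := Real.rpow_nonneg (h.nonneg _) _
  rcases (h.nonneg x).eq_or_lt with h0 | h0
  · have : x = 0 := h.pos _ h0.symm
    subst this
    rw [zero_add, zero_sub, h.neg, h.zero, Real.zero_rpow hq0.ne']
    nlinarith
  · set a := N x with ha
    have hi : 0 ≤ a⁻¹ := by positivity
    have := smooth_unit h hp hq hK hs (a⁻¹ • x) (a⁻¹ • y)
      (by rw [h.smul' hi, ← ha]; field_simp)
    rw [← smul_sub, ← smul_add, h.smul' hi, h.smul' hi, h.smul' hi, Real.mul_rpow hi (h.nonneg _),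
      Real.mul_rpow hi (h.nonneg _), Real.mul_rpow hi (h.nonneg _), Real.mul_rpow hi (h.nonneg _),
      Real.inv_rpow h0.le, Real.inv_rpow h0.le] at this
    have hp' : 0 < a ^ q := Real.rpow_pos_of_pos h0 _
    have hp'' : 0 < a ^ p := Real.rpow_pos_of_pos h0 _
    have h3 := mul_le_mul_of_nonneg_left this hp'.le
    have h4 : a ^ q * (a ^ p)⁻¹ ≤ 1 + a ^ q := by
      rcases le_total a 1 with c | c
      · have : a ^ q ≤ a ^ p := Real.rpow_le_rpow_of_exponent_ge h0 c (by linarith)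
        have : a ^ q * (a ^ p)⁻¹ ≤ 1 := by rw [← div_eq_mul_inv, div_le_one hp'']; exact this
        linarith
      · have : 1 ≤ a ^ p := Real.one_le_rpow c hp0
        have : a ^ q * (a ^ p)⁻¹ ≤ a ^ q := by
          rw [← div_eq_mul_inv]; exact div_le_self hp'.le this
        linarith
    have e1 : a ^ q * ((a ^ q)⁻¹ * N (x + y) ^ q + (a ^ q)⁻¹ * N (x - y) ^ q - 2) =
      N (x + y) ^ q + N (x - y) ^ q - 2 * a ^ q := by field_simp
    have e2 : a ^ q * (C * ((a ^ p)⁻¹ * N y ^ p + (a ^ q)⁻¹ * N y ^ q)) =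
      C * (a ^ q * (a ^ p)⁻¹ * N y ^ p + N y ^ q) := by field_simp
    rw [e1, e2] at h3
    refine h3.trans (mul_le_mul_of_nonneg_left ?_ (by linarith))
    have := mul_le_mul_of_nonneg_right h4 p1
    linarith

end Pool.Agent.H.MP_9fe0db_an
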