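import Pool.Agent.H.MP_9fe0db_an.A

namespace Pool.Agent.H.MP_9fe0db_an
open Set

variable {X : Type} [AddCommGroup X] [Module ℝ X]

structure Adm (f : X → ℝ) where
  L : (X → ℝ) →ₗ[ℝ] ℝ
  k : ℝ
  pos : ∀ φ : X → ℝ, (∀ y, 0 ≤ φ y) → 0 ≤ L φ
  one : L (fun _ => 1) = 1
  k0 : 0 ≤ k
  ineq : ∀ z, f z + k ≤ L fun y => f (z + y)

theorem Adm.mono {f : X → ℝ} (a : Adm f) {φ ψ : X → ℝ} (h : ∀ y, φ y ≤ ψ y) : a.L φ ≤ a.L ψ := by
  have := a.pos (ψ - φ) fun y => sub_nonneg.2 (h y)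
  rw [map_sub] at this; linarith

theorem Adm.lin {f : X → ℝ} (a : Adm f) (s t : ℝ) (φ : X → ℝ) :
    a.L (fun y => s * φ y + t) = s * a.L φ + t := by
  have : (fun y => s * φ y + t) = s • φ + t • fun _ => (1 : ℝ) := by ext y; simp
  rw [this, map_add, map_smul, map_smul, a.one]; simp

def Adm.delta (f : X → ℝ) : Adm f where
  L := LinearMap.proj 0
  k := 0
  pos φ h := h 0
  one := rfl
  k0 := le_rfl
  ineq z := by simp

instance (f : X → ℝ) : Nonempty (Adm f) := ⟨Adm.delta f⟩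

def Adm.comb {f : X → ℝ} (a b : Adm f) (s : ℝ) (u v : X) (κ : ℝ) (h0 : 0 ≤ s) (h1 : s ≤ 1)
    (hκ : 0 ≤ κ) (h : ∀ z, f z + κ ≤ s * f (z + u) + (1 - s) * f (z + v)) : Adm f where
  L := s • a.L ∘ₗ LinearMap.funLeft ℝ ℝ (fun y => u + y) +
    (1 - s) • b.L ∘ₗ LinearMap.funLeft ℝ ℝ (fun y => v + y)
  k := s * a.k + (1 - s) * b.k + κ
  pos φ hφ := add_nonneg (mul_nonneg h0 (a.pos _ fun y => hφ _))
    (mul_nonneg (by linarith) (b.pos _ fun y => hφ _))
  one := by
    change s * a.L (fun _ => 1) + (1 - s) * b.L (fun _ => 1) = 1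
    rw [a.one, b.one]; ring
  k0 := by
    have := mul_nonneg h0 a.k0
    have := mul_nonneg (show 0 ≤ 1 - s by linarith) b.k0
    linarith
  ineq z := by
    change _ ≤ s * a.L (fun y => f (z + (u + y))) + (1 - s) * b.L (fun y => f (z + (v + y)))
    have h2 := mul_le_mul_of_nonneg_left (a.ineq (z + u)) h0
    have h3 := mul_le_mul_of_nonneg_left (b.ineq (z + v)) (show 0 ≤ 1 - s by linarith)
    simp only [add_assoc] at h2 h3
    linarith [h z]

def Adm.scale {f : X → ℝ} (a : Adm f) (t w : ℝ) (ht : t ≠ 0) (hw : 0 ≤ w)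
    (h : ∀ z, f (t • z) = w * f z) : Adm f where
  L := a.L ∘ₗ LinearMap.funLeft ℝ ℝ (fun y => t • y)
  k := w * a.k
  pos φ hφ := a.pos _ fun y => hφ _
  one := a.one
  k0 := mul_nonneg hw a.k0
  ineq z := by
    change _ ≤ a.L (fun y => f (z + t • y))
    have e : (fun y => f (z + t • y)) = fun y => w * f (t⁻¹ • z + y) + 0 := by
      ext y; rw [← h, smul_add, smul_smul, mul_inv_cancel₀ ht, one_smul, add_zero]
    have e' : f z = w * f (t⁻¹ • z) := by rw [← h, smul_smul, mul_inv_cancel₀ ht, one_smul]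
    rw [e, a.lin, e']
    have := mul_le_mul_of_nonneg_left (a.ineq (t⁻¹ • z)) hw
    linarith

def val {f : X → ℝ} (g : X → ℝ) (β : ℝ) (a : Adm f) (x : X) : ℝ :=
  a.L (fun y => g (x + y)) - β * a.k

noncomputable def Phi (f g : X → ℝ) (β : ℝ) (x : X) : ℝ := ⨅ a : Adm f, val g β a x

section
variable {f g : X → ℝ} {β : ℝ} (hβ : 0 ≤ β) (hf : ∀ x, 0 ≤ f x) (hfg : ∀ x, 2 * β * f x ≤ g x)
include hβ hf hfg

omit hf in
theorem val_ge (a : Adm f) (x : X) :
    a.L (fun y => g (x + y)) / 2 + β * f x ≤ val g β a x := by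
  have h1 := a.mono (φ := fun y => 2 * β * f (x + y) + 0) (ψ := fun y => g (x + y))
    fun y => by linarith [hfg (x + y)]
  rw [a.lin] at h1
  have h2 := mul_le_mul_of_nonneg_left (a.ineq x) hβ
  unfold val
  linarith

theorem val_ge' (a : Adm f) (x : X) : β * f x ≤ val g β a x := by
  have h1 := val_ge hβ hfg a x
  have := a.pos (fun y => g (x + y)) fun y =>
    le_trans (mul_nonneg (by linarith) (hf _)) (hfg (x + y))
  linarith

theorem Phi_le (a : Adm f) (x : X) : Phi f g β x ≤ val g β a x :=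
  ciInf_le ⟨β * f x, by rintro _ ⟨a, rfl⟩; exact val_ge' hβ hf hfg a x⟩ a

theorem Phi_ge (x : X) : β * f x ≤ Phi f g β x := le_ciInf fun a => val_ge' hβ hf hfg a x

theorem Phi_le_g (x : X) : Phi f g β x ≤ g x := by
  have := Phi_le hβ hf hfg (Adm.delta f) x
  simpa [val, Adm.delta] using this

omit hβ hf hfg in
theorem Phi_near (x : X) {η : ℝ} (hη : 0 < η) : ∃ a : Adm f, val g β a x < Phi f g β x + η :=
  exists_lt_of_ciInf_lt (by unfold Phi; linarith)

theorem Phi_comb (s : ℝ) (u v : X) (κ : ℝ) (h0 : 0 ≤ s) (h1 : s ≤ 1)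
    (hκ : 0 ≤ κ) (h : ∀ z, f z + κ ≤ s * f (z + u) + (1 - s) * f (z + v)) (x : X) :
    Phi f g β x + β * κ ≤ s * Phi f g β (x + u) + (1 - s) * Phi f g β (x + v) := by
  refine le_of_forall_pos_le_add fun η hη => ?_
  obtain ⟨a, ha⟩ := Phi_near (f := f) (g := g) (β := β) (x + u) hη
  obtain ⟨b, hb⟩ := Phi_near (f := f) (g := g) (β := β) (x + v) hη
  have h2 := Phi_le hβ hf hfg (a.comb b s u v κ h0 h1 hκ h) x
  have e : val g β (a.comb b s u v κ h0 h1 hκ h) x =
      s * val g β a (x + u) + (1 - s) * val g β b (x + v) - β * κ := by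
    change s * a.L (fun y => g (x + (u + y))) + (1 - s) * b.L (fun y => g (x + (v + y))) -
      β * (s * a.k + (1 - s) * b.k + κ) = _
    simp only [val, add_assoc]; ring
  have h3 := mul_le_mul_of_nonneg_left ha.le h0
  have h4 := mul_le_mul_of_nonneg_left hb.le (show 0 ≤ 1 - s by linarith)
  linarith

theorem Phi_scale (t w : ℝ) (ht : t ≠ 0) (hw : 0 < w) (h : ∀ z, f (t • z) = w * f z)
    (h' : ∀ z, g (t • z) = w * g z) (x : X) : Phi f g β (t • x) ≤ w * Phi f g β x := by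
  refine le_of_forall_pos_le_add fun η hη => ?_
  obtain ⟨a, ha⟩ := Phi_near (f := f) (g := g) (β := β) x (div_pos hη hw)
  have h2 := Phi_le hβ hf hfg (a.scale t w ht hw.le h) (t • x)
  have e : val g β (a.scale t w ht hw.le h) (t • x) = w * val g β a x := by
    change a.L (fun y => g (t • x + t • y)) - β * (w * a.k) = _
    have e : (fun y => g (t • x + t • y)) = fun y => w * g (x + y) + 0 := by
      ext y; rw [← h', smul_add, add_zero]
    rw [e, a.lin, val]; ring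
  have h3 := mul_le_mul_of_nonneg_left ha.le hw.le
  rw [mul_add, mul_div_cancel₀ _ hw.ne'] at h3
  linarith

theorem Phi_smooth (u : X) {A B : ℝ} (hA : 0 ≤ A)
    (h : ∀ y, g (y + u) + g (y - u) - 2 * g y ≤ A * g y + B) (x : X) :
    Phi f g β (x + u) + Phi f g β (x - u) - 2 * Phi f g β x ≤ 2 * A * Phi f g β x + B := by
  refine le_of_forall_pos_le_add fun η hη => ?_
  obtain ⟨a, ha⟩ := Phi_near (f := f) (g := g) (β := β) x
    (div_pos hη (show 0 < 2 * A + 2 by linarith))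
  have h1 := Phi_le hβ hf hfg a (x + u)
  have h2 := Phi_le hβ hf hfg a (x - u)
  have h3 := val_ge hβ hfg a x
  have h4 := a.mono (φ := (fun y => g (x + u + y)) + fun y => g (x - u + y))
    (ψ := fun y => (A + 2) * g (x + y) + B) fun y => by
      have := h (x + y)
      rw [show x + y + u = x + u + y by abel, show x + y - u = x - u + y by abel] at this
      simp only [Pi.add_apply]; linarith
  rw [a.lin, map_add] at h4
  have h5 := mul_nonneg hβ (hf x)
  have h6 := mul_le_mul_of_nonneg_left ha.le (show 0 ≤ 2 * A + 2 by linarith)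
  rw [mul_add, mul_div_cancel₀ _ (show 2 * A + 2 ≠ 0 by linarith)] at h6
  have h7 := mul_le_mul_of_nonneg_left h3 hA
  have h8 := mul_nonneg hA h5
  unfold val at *
  nlinarith

end

theorem norm_of_convex {P : X → ℝ} {q : ℝ} (hq : 0 < q) (h0 : ∀ x, 0 ≤ P x)
    (hp : ∀ x, P x = 0 → x = 0) (hs : ∀ (t : ℝ) x, P (t • x) = |t| ^ q * P x)
    (hc : ∀ (s : ℝ) x y, 0 ≤ s → s ≤ 1 → P (s • x + (1 - s) • y) ≤ s * P x + (1 - s) * P y) :
    IsN fun x => P x ^ q⁻¹ := by
  have hsm : ∀ (c : ℝ) (x : X), P (c • x) ^ q⁻¹ = |c| * P x ^ q⁻¹ := fun c x => by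
    rw [hs, Real.mul_rpow (by positivity) (h0 x), Real.rpow_rpow_inv (abs_nonneg c) hq.ne']
  have hpos : ∀ x, P x ^ q⁻¹ = 0 → x = 0 := fun x h =>
    hp x ((Real.rpow_eq_zero (h0 x) (by positivity)).1 h)
  refine ⟨fun x y => ?_, hsm, hpos⟩
  have hn : ∀ x, 0 ≤ P x ^ q⁻¹ := fun x => Real.rpow_nonneg (h0 x) _
  rcases (hn x).eq_or_lt with hx | hx
  · rw [hpos x hx.symm, zero_add]; linarith [hn 0]
  rcases (hn y).eq_or_lt with hy | hy
  · rw [hpos y hy.symm, add_zero]; linarith [hn 0]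
  set a := P x ^ q⁻¹ with ha
  set b := P y ^ q⁻¹ with hb
  have u : ∀ z, 0 < P z ^ q⁻¹ → P ((P z ^ q⁻¹)⁻¹ • z) = 1 := fun z hz => by
    rw [hs, abs_of_pos (by positivity), Real.inv_rpow hz.le, Real.rpow_inv_rpow (h0 z) hq.ne']
    refine inv_mul_cancel₀ fun h => ?_
    rw [h, Real.zero_rpow (by positivity)] at hz
    exact lt_irrefl _ hz
  have h1 := hc (a / (a + b)) (a⁻¹ • x) (b⁻¹ • y) (by positivity)
    (by rw [div_le_one (by positivity)]; linarith)
  rw [u x hx, u y hy, smul_smul, smul_smul, show a / (a + b) * a⁻¹ = (a + b)⁻¹ by field_simp,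
    show (1 - a / (a + b)) * b⁻¹ = (a + b)⁻¹ by field_simp; ring, ← smul_add] at h1
  have h2 := Real.rpow_le_one (h0 _) (h1.trans (le_of_eq (by ring))) (show 0 ≤ q⁻¹ by positivity)
  rw [hsm, abs_of_pos (by positivity), inv_mul_le_iff₀ (by positivity)] at h2
  linarith

end Pool.Agent.H.MP_9fe0db_an
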