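import Pool.Agent.H.MP_9fe0db_an.B

namespace Pool.Agent.H.MP_9fe0db_an
open Set

variable {X : Type} [AddCommGroup X] [Module ℝ X]

theorem bern {q t : ℝ} (hq : 2 ≤ q) (ht : 0 ≤ t) : q * (t - 1) ≤ t ^ q - 1 := by
  have := one_add_mul_self_le_rpow_one_add (s := t - 1) (by linarith) (p := q) (by linarith)
  rw [add_sub_cancel] at this; linarith

theorem main {N1 N2 : X → ℝ} (h1 : IsN N1) (h2 : IsN N2) {p q c C A : ℝ} (hp0 : 0 ≤ p) (hp : p ≤ 2)
    (hq : 2 ≤ q) (hc : 0 < c) (hC : 0 < C) (hA : 0 < A) (h12 : ∀ x, A * N1 x ≤ N2 x)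
    (h21 : ∀ x, A * N2 x ≤ N1 x)
    (hcv : ∀ x y : X, N1 x ^ q + c * N1 y ^ q ≤ (N1 (x + y) ^ q + N1 (x - y) ^ q) / 2)
    (hsm : ∀ x y : X, N2 (x + y) ^ q + N2 (x - y) ^ q - 2 * N2 x ^ q ≤
      C * ((1 + N2 x ^ q) * N2 y ^ p + N2 y ^ q)) :
    ∃ N : X → ℝ, IsN N ∧ (∃ D : ℝ, 0 < D ∧ ∀ x, N x ≤ N2 x ∧ N2 x ≤ D * N x) ∧
      (∃ K : ℝ, 0 < K ∧ ∀ ε : ℝ, 0 < ε → ε ≤ 2 → ∀ x y : X, N x = 1 → N y = 1 →
        ε ≤ N (x - y) → K * ε ^ q ≤ 1 - N ((1 / 2 : ℝ) • (x + y))) ∧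
      ∃ K : ℝ, 0 < K ∧ ∀ t : ℝ, 0 < t → t ≤ 1 → ∀ x y : X, N x = 1 → N y = 1 →
        (N (x + t • y) + N (x - t • y)) / 2 - 1 ≤ K * t ^ p := by
  have hq0 : 0 < q := by linarith
  set f : X → ℝ := fun x => N1 x ^ q with hfd
  set g : X → ℝ := fun x => N2 x ^ q with hgd
  set β : ℝ := A ^ q / 2 with hβd
  have hβ : 0 < β := by positivity
  have hf : ∀ x, 0 ≤ f x := fun x => Real.rpow_nonneg (h1.nonneg x) _
  have hfg : ∀ x, 2 * β * f x ≤ g x := fun x => by
    have := Real.rpow_le_rpow (mul_nonneg hA.le (h1.nonneg x)) (h12 x) hq0.le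
    rw [Real.mul_rpow hA.le (h1.nonneg x)] at this
    simp only [hβd, hfd, hgd]; linarith
  have sf : ∀ (t : ℝ) z, f (t • z) = |t| ^ q * f z := fun t z => by
    simp only [hfd]; rw [h1.smul, Real.mul_rpow (abs_nonneg t) (h1.nonneg z)]
  have sg : ∀ (t : ℝ) z, g (t • z) = |t| ^ q * g z := fun t z => by
    simp only [hgd]; rw [h2.smul, Real.mul_rpow (abs_nonneg t) (h2.nonneg z)]
  set P := Phi f g β with hP
  have P1 : ∀ x, β * f x ≤ P x := Phi_ge hβ.le hf hfg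
  have P2 : ∀ x, P x ≤ g x := Phi_le_g hβ.le hf hfg
  have P0 : ∀ x, 0 ≤ P x := fun x => le_trans (mul_nonneg hβ.le (hf x)) (P1 x)
  have Ps : ∀ (t : ℝ) x, P (t • x) = |t| ^ q * P x := by
    intro t x
    rcases eq_or_ne t 0 with rfl | ht
    · have := P2 0
      simp only [hgd, h2.zero, Real.zero_rpow hq0.ne'] at this
      rw [zero_smul, abs_zero, Real.zero_rpow hq0.ne', zero_mul]
      exact le_antisymm this (P0 0)
    · have hw : 0 < |t| ^ q := Real.rpow_pos_of_pos (abs_pos.2 ht) _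
      refine le_antisymm (Phi_scale hβ.le hf hfg t _ ht hw (sf t) (sg t) x) ?_
      have := Phi_scale hβ.le hf hfg t⁻¹ _ (inv_ne_zero ht)
        (Real.rpow_pos_of_pos (abs_pos.2 (inv_ne_zero ht)) q) (sf _) (sg _) (t • x)
      rw [smul_smul, inv_mul_cancel₀ ht, one_smul, abs_inv, Real.inv_rpow (abs_nonneg t),
        le_inv_mul_iff₀ hw] at this
      exact this
  have Pc : ∀ (s : ℝ) x y, 0 ≤ s → s ≤ 1 → P (s • x + (1 - s) • y) ≤ s * P x + (1 - s) * P y := by
    intro s x y s0 s1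
    have := Phi_comb hβ.le hf hfg s ((1 - s) • (x - y)) (s • (y - x)) 0 s0 s1 le_rfl
      (fun z => ?_) (s • x + (1 - s) • y)
    · rw [show s • x + (1 - s) • y + (1 - s) • (x - y) = x by module,
        show s • x + (1 - s) • y + s • (y - x) = y by module] at this
      linarith
    · have a1 := h1.add (s • (z + (1 - s) • (x - y))) ((1 - s) • (z + s • (y - x)))
      rw [show s • (z + (1 - s) • (x - y)) + (1 - s) • (z + s • (y - x)) = z by module,
        h1.smul' s0, h1.smul' (by linarith)] at a1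
      have a2 := Real.rpow_le_rpow (h1.nonneg z) a1 hq0.le
      have h4 := (convexOn_rpow (p := q) (by linarith)).2
      have a3 := h4 (mem_Ici.2 (h1.nonneg (z + (1 - s) • (x - y))))
        (mem_Ici.2 (h1.nonneg (z + s • (y - x)))) s0 (show 0 ≤ 1 - s by linarith) (by ring)
      simp only [smul_eq_mul] at a3
      simp only [hfd]; linarith
  have Pp : ∀ x, P x = 0 → x = 0 := fun x hx => by
    have a1 := P1 x
    rw [hx] at a1
    have a2 : f x = 0 := le_antisymm (by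
      by_contra h
      have := mul_pos hβ (not_le.1 h)
      linarith) (hf x)
    exact h1.pos x ((Real.rpow_eq_zero (h1.nonneg x) hq0.ne').1 a2)
  have hN := norm_of_convex hq0 P0 Pp Ps Pc
  set N : X → ℝ := fun x => P x ^ q⁻¹ with hNd
  have NP : ∀ x, N x ^ q = P x := fun x => Real.rpow_inv_rpow (P0 x) hq0.ne'
  have N1' : ∀ x, N x ≤ N2 x := fun x => by
    rw [← Real.rpow_le_rpow_iff (hN.nonneg x) (h2.nonneg x) hq0, NP]; exact P2 x
  have hb : 0 < β ^ q⁻¹ := Real.rpow_pos_of_pos hβ _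
  set D := (β ^ q⁻¹ * A)⁻¹ with hD
  have hD0 : 0 < D := by positivity
  have N2' : ∀ x, N2 x ≤ D * N x := fun x => by
    have a1 : β ^ q⁻¹ * N1 x ≤ N x := by
      rw [← Real.rpow_le_rpow_iff (mul_nonneg hb.le (h1.nonneg x)) (hN.nonneg x) hq0, NP,
        Real.mul_rpow hb.le (h1.nonneg x), Real.rpow_inv_rpow hβ.le hq0.ne']
      exact P1 x
    rw [hD, le_inv_mul_iff₀ (by positivity), mul_assoc]
    exact (mul_le_mul_of_nonneg_left (h21 x) hb.le).trans a1
  refine ⟨N, hN, ⟨D, hD0, fun x => ⟨N1' x, N2' x⟩⟩,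
    ⟨β * c * (A / 2) ^ q / q, by positivity, fun ε ε0 _ x y hx hy hxy => ?_⟩,
    ⟨C * (3 * D ^ p + D ^ q) / (2 * q), by positivity, fun t t0 t1 x y hx hy => ?_⟩⟩
  · set u := (1 / 2 : ℝ) • (x - y) with hu
    have a1 := Phi_comb hβ.le hf hfg (1 / 2) u (-u) (c * N1 u ^ q) (by norm_num) (by norm_num)
      (mul_nonneg hc.le (hf u)) (fun z => by
        have := hcv z u
        simp only [hfd, ← sub_eq_add_neg]; linarith) ((1 / 2 : ℝ) • (x + y))
    rw [show (1 / 2 : ℝ) • (x + y) + u = x by rw [hu]; module,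
      show (1 / 2 : ℝ) • (x + y) + -u = y by rw [hu]; module, ← hP, ← NP x, ← NP y, hx, hy,
      Real.one_rpow, ← NP] at a1
    have a2 : A / 2 * ε ≤ N1 u := by
      have b1 := h21 u
      have b2 := N1' u
      rw [hu, hN.smul' (by norm_num), ← hu] at b2
      have := mul_le_mul_of_nonneg_left (show ε / 2 ≤ N2 u by linarith) hA.le
      linarith
    have a3 := Real.rpow_le_rpow (by positivity) a2 hq0.le
    rw [Real.mul_rpow (by positivity) ε0.le] at a3
    have a4 := mul_le_mul_of_nonneg_left a3 (mul_pos hβ hc).le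
    have a5 := bern hq (hN.nonneg ((1 / 2 : ℝ) • (x + y)))
    rw [div_mul_eq_mul_div, div_le_iff₀ hq0]
    nlinarith
  · have p1 : 0 ≤ N2 (t • y) ^ p := Real.rpow_nonneg (h2.nonneg _) _
    have a1 := Phi_smooth hβ.le hf hfg (t • y) (A := C * N2 (t • y) ^ p)
      (B := C * (N2 (t • y) ^ p + N2 (t • y) ^ q)) (by positivity) (fun z => by
        have := hsm z (t • y)
        simp only [hgd]; linarith) x
    rw [← hP, ← NP x, hx, Real.one_rpow, ← NP, ← NP] at a1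
    have a2 : N2 (t • y) ≤ D * t := by
      have := N2' (t • y)
      rwa [hN.smul' t0.le, hy, mul_one] at this
    have a3 := Real.rpow_le_rpow (h2.nonneg _) a2 hp0
    have a4 := Real.rpow_le_rpow (h2.nonneg _) a2 hq0.le
    rw [Real.mul_rpow hD0.le t0.le] at a3 a4
    have a5 : t ^ q ≤ t ^ p := Real.rpow_le_rpow_of_exponent_ge t0 t1 (by linarith)
    have a6 := mul_le_mul_of_nonneg_left a5 (Real.rpow_nonneg hD0.le q)
    have a7 := bern hq (hN.nonneg (x + t • y))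
    have a8 := bern hq (hN.nonneg (x - t • y))
    have a9 := mul_le_mul_of_nonneg_left (show 3 * N2 (t • y) ^ p + N2 (t • y) ^ q ≤
      (3 * D ^ p + D ^ q) * t ^ p by linarith) hC.le
    rw [div_mul_eq_mul_div, le_div_iff₀ (by positivity)]
    nlinarith

end Pool.Agent.H.MP_9fe0db_an
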